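import Pool.Agent.W654.SG.Main
import Pool.Agent.W654.IO.Ultra
import Pool.Agent.W654.IO.Order

/-!
It is consistent with ZFC that some topologizable group admits a sequential group topology of
intermediate sequential order while some other topologizable group does not.

(1) Some notion of forcing preserves `ω₁` and forces Jensen's principle diamond.
(2) Diamond implies that there are topologizable groups `G` and `H` such that `G` admits a
sequential Hausdorff group topology of intermediate sequential order, and `H` does not.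
-/

namespace Pool.Agent.Results.MP_37efd7_lc.TwoGroups

open Pool.Agent.W654.SG (Diamond)
open Pool.Agent.W654.IO (Topologizable HasIntermediate)
open Pool.Agent.Helper292.ForceCH (OmegaOnePreserved DiamondHolds)

theorem result :
    (∃ (P : Type) (_ : Preorder P), Nonempty P ∧ ∀ p : P,
      p ∈ OmegaOnePreserved P ∧ p ∈ DiamondHolds P) ∧
    (Diamond → ∃ (G : Type) (_ : Group G) (H : Type) (_ : Group H),
      Topologizable G ∧ Topologizable H ∧ HasIntermediate G ∧ ¬ HasIntermediate H) := by
  refine ⟨?_, fun hd => ?_⟩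
  · obtain ⟨P, hP, hne, h⟩ := Pool.Agent.Helper292.ForceCH.exists_forcing
    exact ⟨P, hP, hne, fun p => ⟨(h p).1, (h p).2.1⟩⟩
  · obtain ⟨G₁, G₂, h1, h2, h3, h4, h5⟩ := Pool.Agent.W654.SG.exists_groups hd
    have hseq : SequentialSpace (G₁ × G₂) := Pool.Agent.W654.SG.sequential_prod _ _
    have hord : Pool.Agent.W654.IO.seqOrder (G₁ × G₂) = 2 :=
      Pool.Agent.W654.IO.seqOrder_two (Pool.Agent.W654.IO.order_prod _ _) h5
    refine ⟨Multiplicative (G₁ × G₂), inferInstance, Pool.Agent.W654.IO.G2, inferInstance,
      ⟨inferInstance, ⟨inferInstance, inferInstance⟩, fun hc => h5 ?_⟩,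
      Pool.Agent.W654.IO.topologizable.imp fun t ht => ⟨⟨ht.1, ht.2.1⟩, ht.2.2⟩,
      ⟨inferInstance, ⟨inferInstance, inferInstance⟩, hseq, ?_, ?_⟩, ?_⟩
    · have : DiscreteTopology (G₁ × G₂) := hc
      infer_instance
    · have : Pool.Agent.W654.IO.seqOrder (Multiplicative (G₁ × G₂)) = 2 := hord
      rw [this]
      exact one_lt_two
    · have : Pool.Agent.W654.IO.seqOrder (Multiplicative (G₁ × G₂)) = 2 := hord
      rw [this]
      exact lt_of_lt_of_le (by exact_mod_cast Ordinal.natCast_lt_omega0 2)
        (Ordinal.omega0_le_omega 1)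
    · rintro ⟨t, ⟨ht1, ht2⟩, ht3, ht4, ht5⟩
      have hd : DiscreteTopology Pool.Agent.W654.IO.G2 :=
        Pool.Agent.W654.IO.discrete_of_sequential
      rw [Pool.Agent.W654.IO.seqOrder_discrete] at ht4
      exact absurd ht4 (not_lt.2 zero_le)

end Pool.Agent.Results.MP_37efd7_lc.TwoGroups
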